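import Pool.Agent.H56.E.Base
import Pool.Agent.H56.E.H56.G3.TS
import Pool.Agent.H20.ENM.QMS

/-!
# Theorem (G), MP_c59857_nt: the weights of the levels are bounded
-/

set_option autoImplicit false

namespace Pool.Agent.H56.E.H46.G3

open Pool.Agent.H46.G3

open Finset Pool.Agent.H6.N4D Pool.Agent.H78.GX.H6.N4D Pool.Agent.H93.EB Pool.Agent.H93.GS Pool.Agent.H56.G3 Pool.Agent.H56.E.H56.G3

theorem pf_WQ : T_WQ := by
  obtain ⟨m₀, hm⟩ := Pool.Agent.H20.ENM.pf_QMS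
  refine ⟨3 + ∑ j ∈ range m₀, ∑ q ∈ QQ j, 1 / (q : ℝ), ?_, fun m => ?_⟩
  · have h3 : 0 ≤ ∑ j ∈ range m₀, ∑ q ∈ QQ j, 1 / (q : ℝ) :=
      sum_nonneg fun j _ => sum_nonneg fun q _ => by positivity
    linarith
  rcases Nat.lt_or_ge m m₀ with h1 | h1
  · have h2 : ∑ q ∈ QQ m, 1 / (q : ℝ) ≤ ∑ j ∈ range m₀, ∑ q ∈ QQ j, 1 / (q : ℝ) :=
      single_le_sum (f := fun j => ∑ q ∈ QQ j, 1 / (q : ℝ))
        (fun j _ => sum_nonneg fun q _ => by positivity) (mem_range.mpr h1)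
    linarith
  · have h2 := (hm m h1).2
    have h3 : 0 ≤ ∑ j ∈ range m₀, ∑ q ∈ QQ j, 1 / (q : ℝ) :=
      sum_nonneg fun j _ => sum_nonneg fun q _ => by positivity
    linarith

end Pool.Agent.H56.E.H46.G3
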